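import Pool.Agent.H820.PC.Defs

/-!
Diffeomorphisms of `ℂℙ²` which act trivially on the homology, written as homogeneous maps of `ℂ³`,
isotopies between them, and the pull-back of the Fubini-Study form.
-/

set_option autoImplicit false

open Set Topology
open scoped ContDiff

noncomputable section

namespace Pool.Agent.H820.ML

open Pool.Agent.H820.PC

/-- `F` is smooth on `ℂ³ ∖ {0}` and commutes with the multiplications by complex numbers. If `F`
has no zeros on `ℂ³ ∖ {0}` then it induces a smooth map `ℂℙ² → ℂℙ²` which preserves the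
tautological line bundle, and all such maps arise in this way. -/
structure IsLift (F : C3 → C3) : Prop where
  smooth : ContDiffOn ℝ ∞ F Dom
  equivariant : ∀ (c : ℂ) (z : C3), F (c • z) = c • F z

/-- the pull-back of the Fubini-Study form by the map which is induced by `F` -/
def pfs (F : C3 → C3) (z v w : C3) : ℝ := fs (F z) (fderiv ℝ F z v) (fderiv ℝ F z w)

/-- `F` induces a diffeomorphism of `ℂℙ²` which preserves the orientation. The diffeomorphisms
which arise in this way are those which act trivially on the homology of `ℂℙ²`. -/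
structure IsDiffeo (F : C3 → C3) : Prop where
  lift : IsLift F
  inverse : ∃ G, IsLift G ∧ (∀ z, G (F z) = z) ∧ ∀ z, F (G z) = z
  oriented : ∀ z v w : C3, LinearIndependent ℂ ![z, v, w] → 0 < wedge (pfs F z) (pfs F z) v w

/-- `F` and `G` are smoothly isotopic: they are joined by a smooth path of diffeomorphisms -/
def Isotopic (F G : C3 → C3) : Prop :=
  ∃ Φ : ℝ → C3 → C3, ContDiffOn ℝ ∞ (fun p : ℝ × C3 => Φ p.1 p.2) {p | p.2 ≠ 0} ∧
    (∀ t, IsDiffeo (Φ t)) ∧ Φ 0 = F ∧ Φ 1 = G

/-- `F` induces a symplectomorphism of the Fubini-Study form -/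
def IsSymplectomorphism (F : C3 → C3) : Prop :=
  IsDiffeo F ∧ ∀ z v w : C3, z ≠ 0 → pfs F z v w = fs z v w

/-- the pull-back of the Fubini-Study form by `F` is positive on the curve `{P = 0}`: at all
points `z` of the curve it is positive on the complex lines in the kernel of the differential of
`P` -/
def PositiveOnCurve (F : C3 → C3) (P : C3 → ℂ) : Prop :=
  ∀ z v : C3, z ≠ 0 → P z = 0 → fderiv ℂ P z v = 0 → (∀ c : ℂ, v ≠ c • z) → 0 < pfs F z v (J v)

/-- The curve criterion: for some symplectic form `κ` in the class of the Fubini-Study form `ω`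
which tames the complex structure (for example for `κ = ω`), through every point of `ℂℙ²` at which
`F^* ω ∧ κ` is not positive passes an algebraic curve on which `F^* ω` is positive. -/
def CurveCriterion (F : C3 → C3) : Prop :=
  ∃ κ : TwoForm, IsSymplectic κ ∧ Tames κ ∧
    ∀ z v w : C3, LinearIndependent ℂ ![z, v, w] → wedge (pfs F z) (ev κ z) v w ≤ 0 →
      ∃ (k : ℕ) (P : C3 → ℂ), IsCurve k P ∧ P z = 0 ∧ PositiveOnCurve F P

end Pool.Agent.H820.ML
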