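import Pool.Agent.H820.ML.Pull

/-!
Diffeomorphisms of `ℂℙ²` which satisfy the curve criterion are isotopic to symplectomorphisms.
-/

set_option autoImplicit false

open Set Topology Filter
open scoped ContDiff

noncomputable section

namespace Pool.Agent.H820.ML

open Pool.Agent.H820.PC

/-- the covector field of a one-form -/
def cv (β : Form 1) (z : C3) : C3 →L[ℝ] ℝ := covS (β z)

theorem cv_apply (β : Form 1) (z v : C3) : cv β z v = β z ![v] := covS_apply _ _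

theorem cov_cv (β : Form 1) : cov (cv β) = β := by
  funext z
  exact covL.apply_symm_apply (β z)

theorem contDiffOn_cv {β : Form 1} (h : ContDiffOn ℝ ∞ β Dom) : ContDiffOn ℝ ∞ (cv β) Dom :=
  covS.contDiff.comp_contDiffOn h

/-- covector fields which are connection forms with the values `l` on the vertical vectors -/
structure IsCn (l : ℂ → ℝ) (b : C3 → C3 →L[ℝ] ℝ) : Prop where
  smooth : ContDiffOn ℝ ∞ b Dom
  invariant : ∀ (c : ℂ) (z v : C3), c ≠ 0 → z ≠ 0 → b (c • z) (c • v) = b z v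
  vertical : ∀ (z : C3) (c : ℂ), z ≠ 0 → b z (c • z) = l c

variable {l : ℂ → ℝ} {b : C3 → C3 →L[ℝ] ℝ}

theorem IsCn.isConn (h : IsCn l b) : IsConn (cov b) :=
  ⟨contDiffOn_cov h.smooth, fun c z v hc hz => by
    rw [cov_apply', cov_apply']
    exact h.invariant c z (v 0) hc hz, l, fun z c hz => by
    rw [cov_apply]
    exact h.vertical z c hz⟩

theorem IsCn.diff (h : IsCn l b) {z : C3} (hz : z ≠ 0) : DifferentiableAt ℝ b z :=
  (h.smooth.contDiffAt (mem_nhds_Dom hz)).differentiableAt (by simp)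

theorem isCn_of {β : Form 1} (h : IsConn β) (hl : ∀ (z : C3) (c : ℂ), z ≠ 0 → β z ![c • z] = l c) :
    IsCn l (cv β) := by
  refine ⟨contDiffOn_cv h.smooth, fun c z v hc hz => ?_, fun z c hz => ?_⟩
  · rw [cv_apply, cv_apply, ← h.invariant c z ![v] hc hz]
    congr 1
    funext i
    fin_cases i
    rfl
  · rw [cv_apply]
    exact hl z c hz

/-- the weights -/
def w0 (s : ℝ) : ℝ := 1 - Real.smoothTransition (2 * s)

/-- the weights -/
def w1 (s : ℝ) : ℝ := Real.smoothTransition (2 * s) - Real.smoothTransition (2 * s - 1)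

/-- the weights -/
def w2 (s : ℝ) : ℝ := Real.smoothTransition (2 * s - 1)

theorem contDiff_w0 : ContDiff ℝ ∞ w0 :=
  contDiff_const.sub (Real.smoothTransition.contDiff.comp (contDiff_const.mul contDiff_id))

theorem contDiff_w2 : ContDiff ℝ ∞ w2 :=
  Real.smoothTransition.contDiff.comp ((contDiff_const.mul contDiff_id).sub contDiff_const)

theorem contDiff_w1 : ContDiff ℝ ∞ w1 :=
  (Real.smoothTransition.contDiff.comp (contDiff_const.mul contDiff_id)).sub contDiff_w2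

theorem sum_w (s : ℝ) : w0 s + w1 s + w2 s = 1 := by
  unfold w0 w1 w2
  ring

theorem w_cases (s : ℝ) : (w2 s = 0 ∧ 0 ≤ w0 s ∧ 0 ≤ w1 s) ∨ (w0 s = 0 ∧ 0 ≤ w1 s ∧ 0 ≤ w2 s) := by
  unfold w0 w1 w2
  have a1 := Real.smoothTransition.nonneg (2 * s)
  have a2 := Real.smoothTransition.le_one (2 * s)
  have a3 := Real.smoothTransition.nonneg (2 * s - 1)
  have a4 := Real.smoothTransition.le_one (2 * s - 1)
  rcases le_total s (1 / 2) with h | h
  · left
    have e : Real.smoothTransition (2 * s - 1) = 0 :=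
      Real.smoothTransition.zero_of_nonpos (by linarith)
    rw [e]
    exact ⟨rfl, by linarith, by linarith⟩
  · right
    have e : Real.smoothTransition (2 * s) = 1 := Real.smoothTransition.one_of_one_le (by linarith)
    rw [e]
    exact ⟨by ring, by linarith, a3⟩

theorem w_left {s : ℝ} (hs : s ≤ 0) : w0 s = 1 ∧ w1 s = 0 ∧ w2 s = 0 := by
  unfold w0 w1 w2
  rw [Real.smoothTransition.zero_of_nonpos (x := 2 * s) (by linarith),
    Real.smoothTransition.zero_of_nonpos (x := 2 * s - 1) (by linarith)]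
  norm_num

theorem w_right {s : ℝ} (hs : 1 ≤ s) : w0 s = 0 ∧ w1 s = 0 ∧ w2 s = 1 := by
  unfold w0 w1 w2
  rw [Real.smoothTransition.one_of_one_le (x := 2 * s) (by linarith),
    Real.smoothTransition.one_of_one_le (x := 2 * s - 1) (by linarith)]
  norm_num

/-- the path of connection forms -/
def pathOf (b₀ b₁ b₂ : C3 → C3 →L[ℝ] ℝ) : Cov2 := fun p =>
  w0 p.1 • b₀ p.2 + w1 p.1 • b₁ p.2 + w2 p.1 • b₂ p.2

/-- the path of two-forms -/
def formOf (Ω₀ Ω₁ Ω₂ : TwoForm) (s : ℝ) : TwoForm := w0 s • Ω₀ + w1 s • Ω₁ + w2 s • Ω₂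

theorem formOf_at (Ω₀ Ω₁ Ω₂ : TwoForm) (s : ℝ) (z : C3) (v : Fin 2 → C3) :
    (formOf Ω₀ Ω₁ Ω₂ s).1 z v = w0 s * Ω₀.1 z v + w1 s * Ω₁.1 z v + w2 s * Ω₂.1 z v := by
  unfold formOf
  rw [add_at', add_at', smul_at', smul_at', smul_at']

variable {b₀ b₁ b₂ : C3 → C3 →L[ℝ] ℝ}

theorem contDiffOn_pathOf (h₀ : IsCn l b₀) (h₁ : IsCn l b₁) (h₂ : IsCn l b₂) :
    ContDiffOn ℝ ∞ (pathOf b₀ b₁ b₂) UU := by
  have k : ∀ {w : ℝ → ℝ} {b : C3 → C3 →L[ℝ] ℝ}, ContDiff ℝ ∞ w → ContDiffOn ℝ ∞ b Dom →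
      ContDiffOn ℝ ∞ (fun p : ℝ × C3 => w p.1 • b p.2) UU := by
    intro w b hw hb
    exact (hw.comp contDiff_fst).contDiffOn.smul (hb.comp contDiffOn_snd fun p hp => hp)
  exact ((k contDiff_w0 h₀.smooth).add (k contDiff_w1 h₁.smooth)).add (k contDiff_w2 h₂.smooth)

theorem om_pathOf (h₀ : IsCn l b₀) (h₁ : IsCn l b₁) (h₂ : IsCn l b₂) {Ω₀ Ω₁ Ω₂ : TwoForm}
    (k₀ : ∀ z v w : C3, z ≠ 0 → Ω₀.1 z ![v, w] = extDeriv (cov b₀) z ![v, w])
    (k₁ : ∀ z v w : C3, z ≠ 0 → Ω₁.1 z ![v, w] = extDeriv (cov b₁) z ![v, w])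
    (k₂ : ∀ z v w : C3, z ≠ 0 → Ω₂.1 z ![v, w] = extDeriv (cov b₂) z ![v, w])
    {s : ℝ} {z : C3} (hz : z ≠ 0) (v w : C3) :
    Om (pathOf b₀ b₁ b₂) (s, z) v w = (formOf Ω₀ Ω₁ Ω₂ s).1 z ![v, w] := by
  have hd : HasFDerivAt (pathOf b₀ b₁ b₂) (fderiv ℝ (pathOf b₀ b₁ b₂) (s, z))
      ((fun y : C3 => (s, y)) z) :=
    (((contDiffOn_pathOf h₀ h₁ h₂).contDiffAt (isOpen_UU.mem_nhds hz)).differentiableAt
      (by simp)).hasFDerivAt
  have hd1 := hd.comp z (hasFDerivAt_prodMk_right s z)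
  have hd2 : HasFDerivAt (fun y => w0 s • b₀ y + w1 s • b₁ y + w2 s • b₂ y)
      (w0 s • fderiv ℝ b₀ z + w1 s • fderiv ℝ b₁ z + w2 s • fderiv ℝ b₂ z) z :=
    (((h₀.diff hz).hasFDerivAt.const_smul (w0 s)).add
      ((h₁.diff hz).hasFDerivAt.const_smul (w1 s))).add
      ((h₂.diff hz).hasFDerivAt.const_smul (w2 s))
  have e := hd1.unique hd2
  have e1 : ∀ x y : C3, fderiv ℝ (pathOf b₀ b₁ b₂) (s, z) (0, x) y =
      w0 s * fderiv ℝ b₀ z x y + w1 s * fderiv ℝ b₁ z x y + w2 s * fderiv ℝ b₂ z x y := by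
    intro x y
    exact congrArg (fun L : C3 →L[ℝ] (C3 →L[ℝ] ℝ) => L x y) e
  rw [formOf_at, k₀ z v w hz, k₁ z v w hz, k₂ z v w hz, extDeriv_cov (h₀.diff hz).hasFDerivAt,
    extDeriv_cov (h₁.diff hz).hasFDerivAt, extDeriv_cov (h₂.diff hz).hasFDerivAt]
  unfold Om
  rw [e1, e1]
  ring

theorem isPath_pathOf (h₀ : IsCn l b₀) (h₁ : IsCn l b₁) (h₂ : IsCn l b₂) {Ω₀ Ω₁ Ω₂ : TwoForm}
    (k₀ : ∀ z v w : C3, z ≠ 0 → Ω₀.1 z ![v, w] = extDeriv (cov b₀) z ![v, w])
    (k₁ : ∀ z v w : C3, z ≠ 0 → Ω₁.1 z ![v, w] = extDeriv (cov b₁) z ![v, w])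
    (k₂ : ∀ z v w : C3, z ≠ 0 → Ω₂.1 z ![v, w] = extDeriv (cov b₂) z ![v, w])
    (hp : ∀ s z e n, IsFrame z e n → 0 < pfA ((formOf Ω₀ Ω₁ Ω₂ s).1 z) e n) :
    IsPath (pathOf b₀ b₁ b₂) := by
  refine ⟨contDiffOn_pathOf h₀ h₁ h₂, ?_, ⟨l, ?_⟩, ?_, ?_, ?_⟩
  · intro s c z v hc hz
    show w0 s * b₀ (c • z) (c • v) + w1 s * b₁ (c • z) (c • v) + w2 s * b₂ (c • z) (c • v) =
      w0 s * b₀ z v + w1 s * b₁ z v + w2 s * b₂ z v
    rw [h₀.invariant c z v hc hz, h₁.invariant c z v hc hz, h₂.invariant c z v hc hz]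
  · intro s z c hz
    show w0 s * b₀ z (c • z) + w1 s * b₁ z (c • z) + w2 s * b₂ z (c • z) = l c
    rw [h₀.vertical z c hz, h₁.vertical z c hz, h₂.vertical z c hz, ← add_mul, ← add_mul, sum_w,
      one_mul]
  · intro s z hs hz
    unfold pathOf
    simp only
    obtain ⟨a1, a2, a3⟩ := w_left hs
    obtain ⟨c1, c2, c3⟩ := w_left (le_refl (0 : ℝ))
    rw [a1, a2, a3, c1, c2, c3]
  · intro s z hs hz
    unfold pathOf
    simp only
    obtain ⟨a1, a2, a3⟩ := w_right hs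
    obtain ⟨c1, c2, c3⟩ := w_right (le_refl (1 : ℝ))
    rw [a1, a2, a3, c1, c2, c3]
  · intro s z u hz hu
    refine nondeg_of_pos (T := formOf Ω₀ Ω₁ Ω₂ s) (hp s) hz fun w => ?_
    rw [← om_pathOf h₀ h₁ h₂ k₀ k₁ k₂ hz]
    exact hu w

/-- the values of the connection form of the Fubini-Study form on the vertical vectors -/
def l0 (c : ℂ) : ℝ := (2 : ℝ)⁻¹ * c.im

theorem lam0_vertical (z : C3) (c : ℂ) (hz : z ≠ 0) : lam0 z ![c • z] = l0 c := by
  have hz' : ‖z‖ ≠ 0 := norm_ne_zero_iff.2 hz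
  rw [lam0_apply]
  show _ * tau z (c • z) = _
  rw [tau_vertical]
  unfold l0
  field_simp

theorem isCn_lam0 : IsCn l0 (cv lam0) := isCn_of isConn_lam0 lam0_vertical

theorem isCn_pc {F : C3 → C3} (h : IsLift F) (h0 : ∀ z, z ≠ 0 → F z ≠ 0) (hb : IsCn l b) :
    IsCn l (pc F b) := by
  have hc := isConn_pc h h0 hb.smooth hb.isConn
  have e : cv (cov (pc F b)) = pc F b := by
    funext z
    exact covL.symm_apply_apply _
  rw [← e]
  refine isCn_of hc fun z c hz => ?_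
  rw [cov_apply]
  show b (F z) (fderiv ℝ F z (c • z)) = l c
  rw [h.fderiv_vertical hz]
  exact hb.vertical (F z) c (h0 z hz)

/-- the pull-back of the Fubini-Study form as a two-form on `ℂℙ²` -/
def pform (F : C3 → C3) (h : IsLift F) (h0 : ∀ z, z ≠ 0 → F z ≠ 0) : TwoForm :=
  mkTwo (dB (cov (pc F (cv lam0)))) (isForm_dB (isCn_pc h h0 isCn_lam0).isConn)

theorem pform_ext {F : C3 → C3} (h : IsLift F) (h0 : ∀ z, z ≠ 0 → F z ≠ 0) (z v w : C3)
    (hz : z ≠ 0) : (pform F h h0).1 z ![v, w] = extDeriv (cov (pc F (cv lam0))) z ![v, w] := by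
  show dB _ z ![v, w] = _
  rw [dB_ne _ hz]

theorem pform_at {F : C3 → C3} (h : IsLift F) (h0 : ∀ z, z ≠ 0 → F z ≠ 0) {z : C3} (hz : z ≠ 0)
    (v w : C3) : (pform F h h0).1 z ![v, w] = pfs F z v w := by
  rw [pform_ext h h0 z v w hz, extDeriv_pc h h0 isCn_lam0.smooth hz, cov_cv, dlam0 (h0 z hz)]
  rfl

theorem IsDiffeo.ne {F : C3 → C3} (h : IsDiffeo F) (z : C3) (hz : z ≠ 0) : F z ≠ 0 := by
  obtain ⟨G, hG, h1, -⟩ := h.inverse
  intro h2
  have := h1 z
  rw [h2, hG.zero] at this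
  exact hz this.symm

/-- the flow pulls back, everywhere -/
theorem pull_ext {a : Cov2} (h : IsPath a) {R B : ℝ × C3 → C3} (hf : IsFlow a R B)
    (hext : ∀ s, IsLift (ext R s)) (s : ℝ) {z : C3} (hz : z ≠ 0) (v w : C3) :
    Om a (s, ext R s z) (fderiv ℝ (ext R s) z v) (fderiv ℝ (ext R s) z w) = Om a (0, z) v w := by
  -- a unit vector
  have key : ∀ y : C3, ‖y‖ = 1 → ∀ v w : C3,
      Om a (s, ext R s y) (fderiv ℝ (ext R s) y v) (fderiv ℝ (ext R s) y w) = Om a (0, y) v w := by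
    intro y hy v w
    have hys : y ∈ Shell := ⟨by rw [hy]; norm_num, by rw [hy]; norm_num⟩
    have e1 : ext R s =ᶠ[𝓝 y] fun x => R (s, x) := by
      filter_upwards [isOpen_Shell.mem_nhds hys] with x hx
      exact hf.ext_shell h s hx
    have e2 : HasFDerivAt (fun x : C3 => R (s, x))
        ((fderiv ℝ R (s, y)).comp (ContinuousLinearMap.inr ℝ ℝ C3)) y := by
      have e3 : HasFDerivAt R (fderiv ℝ R (s, y)) ((fun x : C3 => (s, x)) y) :=
        (hf.smoothR.differentiable (by simp) _).hasFDerivAt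
      exact e3.comp y (hasFDerivAt_prodMk_right s y)
    have e4 : ∀ x, fderiv ℝ (ext R s) y x = DR R s y x := by
      intro x
      rw [e1.fderiv_eq, e2.fderiv]
      rfl
    rw [e4, e4, hf.ext_shell h s hys]
    exact hf.om_const h hys v w s
  set c : ℂ := (‖z‖ : ℂ)⁻¹ with hc
  have hc0 : c ≠ 0 := unit_ne hz
  have hn : ∀ s x, ‖R (s, x)‖ = ‖x‖ := hf.norm h
  have hz' : ext R s z ≠ 0 := by
    rw [← norm_ne_zero_iff, norm_ext hn]
    exact norm_ne_zero_iff.2 hz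
  have k := key (c • z) (norm_unit hz) (c • v) (c • w)
  rw [(hext s).fderiv_scale hc0 hz, (hext s).fderiv_scale hc0 hz, (hext s).equivariant,
    h.om_scale hc0 hz', h.om_scale hc0 hz] at k
  exact k

/-- **The isotopy.** -/
theorem exists_isotopy {a : Cov2} (h : IsPath a) : ∃ Ψ Θ : ℝ → C3 → C3,
    ContDiffOn ℝ ∞ (fun p : ℝ × C3 => Ψ p.1 p.2) UU ∧ (∀ s, IsLift (Ψ s)) ∧ (∀ s, IsLift (Θ s)) ∧
      (∀ s z, Θ s (Ψ s z) = z) ∧ (∀ s z, Ψ s (Θ s z) = z) ∧ (∀ z, Ψ 0 z = z) ∧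
      ∀ s z v w, z ≠ 0 → Om a (0, Ψ s z) (fderiv ℝ (Ψ s) z v) (fderiv ℝ (Ψ s) z w) =
        Om a (s, z) v w := by
  obtain ⟨R, B, hf⟩ := exists_isFlow h
  have hn : ∀ s x, ‖R (s, x)‖ = ‖x‖ := hf.norm h
  have hnB : ∀ s x, ‖B (s, x)‖ = ‖x‖ := hf.normB h
  have hc : ∀ (c : ℂ) (x : C3), ‖c‖ = 1 → ‖x‖ = 1 → c ≠ 0 ∧ chi (c • x) = chi x := by
    intro c x hc hx
    refine ⟨fun h0 => ?_, chi_norm (by rw [norm_smul, hc, one_mul])⟩
    rw [h0, norm_zero] at hc
    exact zero_ne_one hc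
  have hslice : ∀ {Q : ℝ × C3 → C3}, ContDiff ℝ ∞ Q → ∀ s, ContDiffOn ℝ ∞ (ext Q s) Dom := by
    intro Q hQ s
    have h1 : ContDiffOn ℝ ∞ (fun z : C3 => (s, z)) Dom := by fun_prop
    have h2 := (contDiffOn_ext hQ).comp h1 (fun z (hz : z ≠ 0) => (hz : (s, z) ∈ UU))
    exact h2.congr fun z _ => rfl
  have hR : ∀ s, IsLift (ext R s) := fun s => ⟨hslice hf.smoothR s, fun c z =>
    ext_scale (fun c x s h1 h2 => hf.scale h (hc c x h1 h2).1 (hc c x h1 h2).2 s) s c z⟩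
  have hB : ∀ s, IsLift (ext B s) := fun s => ⟨hslice hf.smoothB s, fun c z =>
    ext_scale (fun c x s h1 h2 => hf.scaleB h (hc c x h1 h2).1 (hc c x h1 h2).2 s) s c z⟩
  have hRB : ∀ s z, ext R s (ext B s z) = z := ext_left hnB hf.right
  have hBR : ∀ s z, ext B s (ext R s z) = z := ext_left hn hf.left
  refine ⟨ext B, ext R, contDiffOn_ext hf.smoothB, hB, hR, hRB, hBR, fun z => ?_, ?_⟩
  · have h1 : ∀ x, B (0, x) = x := fun x => by
      have := hf.left 0 x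
      rwa [hf.zero] at this
    by_cases hz : z = 0
    · rw [hz]
      exact (hB 0).zero
    · have hzC : ((‖z‖ : ℝ) : ℂ) ≠ 0 := by exact_mod_cast norm_ne_zero_iff.2 hz
      unfold ext
      rw [h1, smul_smul, mul_inv_cancel₀ hzC, one_smul]
  · intro s z v w hz
    have hz' : ext B s z ≠ 0 := by
      rw [← norm_ne_zero_iff, norm_ext hnB]
      exact norm_ne_zero_iff.2 hz
    have k := pull_ext h hf hR s hz' (fderiv ℝ (ext B s) z v) (fderiv ℝ (ext B s) z w)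
    have e1 : HasFDerivAt (fun x => ext R s (ext B s x))
        ((fderiv ℝ (ext R s) (ext B s z)).comp (fderiv ℝ (ext B s) z)) z :=
      ((hR s).diff hz').hasFDerivAt.comp z ((hB s).diff hz).hasFDerivAt
    have e2 : (fun x => ext R s (ext B s x)) = id := by
      funext x
      exact hRB s x
    rw [e2] at e1
    have e3 : ∀ x, fderiv ℝ (ext R s) (ext B s z) (fderiv ℝ (ext B s) z x) = x := fun x =>
      congrArg (fun L : C3 →L[ℝ] C3 => L x) (e1.unique (hasFDerivAt_id z))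
    rw [e3, e3, hRB] at k
    exact k.symm

/-- **Diffeomorphisms which satisfy the curve criterion are isotopic to symplectomorphisms.** -/
theorem isotopic_of_criterion {F : C3 → C3} (hF : IsDiffeo F) (hC : CurveCriterion F) :
    ∃ G, IsSymplectomorphism G ∧ Isotopic F G := by
  obtain ⟨κ₀, g1, g2, g3⟩ := hC
  have h0 := hF.ne
  set Ω : TwoForm := pform F hF.lift h0 with hΩ
  have hev : ∀ z v w : C3, z ≠ 0 → Ω.1 z ![v, w] = pfs F z v w := fun z v w hz =>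
    pform_at hF.lift h0 hz v w
  -- positivity of the square
  have hpos : ∀ z e n, IsFrame z e n → 0 < pfA (Ω.1 z) e n := by
    intro z e n hf
    have h1 := hF.oriented z e n hf.indep
    have h2 : wedge (pfs F z) (pfs F z) e n = wd (Ω.1 z) (Ω.1 z) e n := by
      unfold wedge wd
      simp only [hev z _ _ hf.z0]
    rw [h2, wd_self] at h1
    linarith
  obtain ⟨κ, hκ, hw⟩ := exists_taming (Ω := Ω) (isK_iff.2 ⟨g1, g2⟩) (by
    intro z e n hf hle
    have h2 : wedge (pfs F z) (ev κ₀ z) e n = wd (Ω.1 z) (κ₀.1 z) e n := by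
      unfold wedge wd
      simp only [hev z _ _ hf.z0]
      rfl
    rw [← h2] at hle
    obtain ⟨k, P, hP, hPz, hpc⟩ := g3 z e n hf.indep hle
    refine ⟨k, P, hP, hPz, fun y u hy hPy hd hu => ?_⟩
    show 0 < Ω.1 y ![u, J u]
    rw [hev y _ _ hy]
    exact hpc y u hy hPy hd hu)
  -- the connection forms
  obtain ⟨β, hβ, hκβ⟩ := hκ.cohomologous
  have hb₀ : IsCn l0 (pc F (cv lam0)) := isCn_pc hF.lift h0 isCn_lam0
  have hb₁ : IsCn l0 (fun z => cv lam0 z + cv β z) := by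
    refine ⟨isCn_lam0.smooth.add (contDiffOn_cv hβ.smooth), ?_, ?_⟩
    · intro c z v hc hz
      have hb : IsCn 0 (cv β) := isCn_of hβ.isConn fun z c hz => hβ.horizontal z _ 0 c hz rfl
      show cv lam0 (c • z) (c • v) + cv β (c • z) (c • v) = cv lam0 z v + cv β z v
      rw [isCn_lam0.invariant c z v hc hz, hb.invariant c z v hc hz]
    · intro z c hz
      have hb : IsCn 0 (cv β) := isCn_of hβ.isConn fun z c hz => hβ.horizontal z _ 0 c hz rfl
      show cv lam0 z (c • z) + cv β z (c • z) = l0 c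
      rw [isCn_lam0.vertical z c hz, hb.vertical z c hz]
      exact add_zero _
  have k₀ : ∀ z v w : C3, z ≠ 0 → Ω.1 z ![v, w] = extDeriv (cov (pc F (cv lam0))) z ![v, w] :=
    pform_ext hF.lift h0
  have k₁ : ∀ z v w : C3, z ≠ 0 →
      κ.1 z ![v, w] = extDeriv (cov fun z => cv lam0 z + cv β z) z ![v, w] := by
    intro z v w hz
    have hb : IsCn 0 (cv β) := isCn_of hβ.isConn fun z c hz => hβ.horizontal z _ 0 c hz rfl
    rw [hκβ z v w hz, ← dlam0 hz]
    unfold d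
    rw [extDeriv_cov (b := fun z => cv lam0 z + cv β z)
      ((isCn_lam0.diff hz).hasFDerivAt.add (hb.diff hz).hasFDerivAt)]
    have e1 : extDeriv lam0 z ![v, w] = fderiv ℝ (cv lam0) z v w - fderiv ℝ (cv lam0) z w v := by
      conv_lhs => rw [← cov_cv lam0]
      exact extDeriv_cov (isCn_lam0.diff hz).hasFDerivAt v w
    have e2 : extDeriv β z ![v, w] = fderiv ℝ (cv β) z v w - fderiv ℝ (cv β) z w v := by
      conv_lhs => rw [← cov_cv β]
      exact extDeriv_cov (hb.diff hz).hasFDerivAt v w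
    rw [e1, e2]
    simp only [add_apply]
    ring
  have k₂ : ∀ z v w : C3, z ≠ 0 → fsForm.1 z ![v, w] = extDeriv (cov (cv lam0)) z ![v, w] := by
    intro z v w hz
    rw [fsForm_at hz, cov_cv, dlam0 hz]
  -- positivity along the path
  have hp : ∀ s z e n, IsFrame z e n → 0 < pfA ((formOf Ω κ fsForm s).1 z) e n := by
    intro s z e n hf
    have a1 := hpos z e n hf
    have a2 := hκ.pfA_pos hf
    have a3 := hw z e n hf
    have hsum := sum_w s
    rcases w_cases s with ⟨q1, q2, q3⟩ | ⟨q1, q2, q3⟩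
    · have e1 : (formOf Ω κ fsForm s).1 z = w0 s • Ω.1 z + w1 s • κ.1 z := by
        unfold formOf
        rw [q1, zero_smul, add_zero, add_at, smul_at, smul_at]
      rw [e1, pfA_add, pfA_smul, pfA_smul, wd_smul_left, wd_smul_right]
      rw [q1, add_zero] at hsum
      have b1 : 0 ≤ w0 s ^ 2 * pfA (Ω.1 z) e n := by positivity
      have b3 : 0 ≤ w0 s * (w1 s * wd (Ω.1 z) (κ.1 z) e n) := by positivity
      have b2 : 0 ≤ w1 s ^ 2 * pfA (κ.1 z) e n := by positivity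
      rcases q2.eq_or_lt with h | h
      · have : w1 s = 1 := by linarith
        rw [← h, this]
        linarith
      · have : 0 < w0 s ^ 2 * pfA (Ω.1 z) e n := by positivity
        linarith
    · have hK : IsK (formOf Ω κ fsForm s) := by
        have := convex_IsK hκ isK_fsForm q2 q3 (by linarith)
        unfold formOf
        rw [q1, zero_smul, zero_add]
        exact this
      exact hK.pfA_pos hf
  have hpath := isPath_pathOf hb₀ hb₁ isCn_lam0 k₀ k₁ k₂ hp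
  have hom : ∀ (s : ℝ) (z v w : C3), z ≠ 0 →
      Om (pathOf (pc F (cv lam0)) (fun z => cv lam0 z + cv β z) (cv lam0)) (s, z) v w =
        (formOf Ω κ fsForm s).1 z ![v, w] := fun s z v w hz =>
    om_pathOf hb₀ hb₁ isCn_lam0 k₀ k₁ k₂ hz v w
  obtain ⟨Ψ, Θ, hΨs, hΨ, hΘ, hΘΨ, hΨΘ, hΨ0, hpull⟩ := exists_isotopy hpath
  obtain ⟨G, hG, hGF, hFG⟩ := hF.inverse
  have hΨne : ∀ s z, z ≠ 0 → Ψ s z ≠ 0 := by
    intro s z hz h2
    have := hΘΨ s z
    rw [h2, (hΘ s).zero] at this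
    exact hz this.symm
  have hGne : ∀ z, z ≠ 0 → G z ≠ 0 := by
    intro z hz h2
    have := hFG z
    rw [h2, hF.lift.zero] at this
    exact hz this.symm
  -- the pull-backs by the maps of the isotopy
  have hpfs : ∀ (s : ℝ) (z v w : C3), z ≠ 0 →
      pfs (fun z => F (Ψ s z)) z v w = (formOf Ω κ fsForm s).1 z ![v, w] := by
    intro s z v w hz
    have e1 : HasFDerivAt (fun x => F (Ψ s x))
        ((fderiv ℝ F (Ψ s z)).comp (fderiv ℝ (Ψ s) z)) z :=
      (hF.lift.diff (hΨne s z hz)).hasFDerivAt.comp z ((hΨ s).diff hz).hasFDerivAt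
    rw [← hom s z v w hz, ← hpull s z v w hz, hom 0 _ _ _ (hΨne s z hz), formOf_at]
    obtain ⟨c1, c2, c3⟩ := w_left (le_refl (0 : ℝ))
    rw [c1, c2, c3, hev _ _ _ (hΨne s z hz)]
    unfold pfs
    rw [e1.fderiv]
    simp
  have hdiff : ∀ s, IsDiffeo (fun z => F (Ψ s z)) := by
    intro s
    refine ⟨hF.lift.comp (hΨ s) (hΨne s), ⟨fun z => Θ s (G z), (hΘ s).comp hG hGne,
      fun z => by
        show Θ s (G (F (Ψ s z))) = z
        rw [hGF, hΘΨ], fun z => by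
        show F (Ψ s (Θ s (G z))) = z
        rw [hΨΘ, hFG]⟩, fun z v w hi => ?_⟩
    have h2 : wedge (pfs (fun z => F (Ψ s z)) z) (pfs (fun z => F (Ψ s z)) z) v w =
        wedge (ev (formOf Ω κ fsForm s) z) (ev (formOf Ω κ fsForm s) z) v w := by
      unfold wedge
      simp only [hpfs s z _ _ (ne_of_indep hi)]
      rfl
    rw [h2]
    exact pos_of_frames (hp s) z v w hi
  refine ⟨fun z => F (Ψ 1 z), ⟨hdiff 1, fun z v w hz => ?_⟩, fun s z => F (Ψ s z), ?_, hdiff,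
    ?_, rfl⟩
  · rw [hpfs 1 z v w hz, formOf_at]
    obtain ⟨c1, c2, c3⟩ := w_right (le_refl (1 : ℝ))
    rw [c1, c2, c3, fsForm_at hz]
    simp
  · exact hF.lift.smooth.comp hΨs fun p hp => hΨne p.1 p.2 hp
  · funext z
    show F (Ψ 0 z) = F z
    rw [hΨ0]

end Pool.Agent.H820.ML
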