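import Mathlib
import Pool.Graph.R_seed8.Helper186.TimeFlow

/-!
Flows of compactly supported time dependent vector fields on vector spaces.
-/

set_option autoImplicit false

open Set Topology Filter
open scoped ContDiff Manifold

noncomputable section

namespace Pool.Agent.H820.ML

universe u

variable {E : Type u} [NormedAddCommGroup E] [NormedSpace ℝ E] [FiniteDimensional ℝ E]

theorem exists_flow {Y : ℝ × E → E} (hY : ContDiff ℝ ∞ Y) {K : Set (ℝ × E)} (hK : IsCompact K)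
    (h0 : ∀ p, p ∉ K → Y p = 0) :
    ∃ R B : ℝ × E → E, ContDiff ℝ ∞ R ∧ ContDiff ℝ ∞ B ∧ (∀ x, R (0, x) = x) ∧
      (∀ s x, B (s, R (s, x)) = x) ∧ (∀ s x, R (s, B (s, x)) = x) ∧
      (∀ s x, HasDerivAt (fun s => R (s, x)) (Y (s, R (s, x))) s) ∧
      (∀ (c : ℝ → E), (∀ s, HasDerivAt c (Y (s, c s)) s) → ∀ s, c s = R (s, c 0)) := by
  have hYm : ContMDiff (𝓘(ℝ, ℝ).prod 𝓘(ℝ, E)) 𝓘(ℝ, E).tangent ∞
      (fun p : ℝ × E => (⟨p.2, Y p⟩ : TangentBundle 𝓘(ℝ, E) E)) := by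
    intro p
    rw [Bundle.contMDiffAt_totalSpace]
    refine ⟨contMDiffAt_snd, ?_⟩
    have h1 : ContMDiffAt 𝓘(ℝ, ℝ × E) 𝓘(ℝ, E) ∞ Y p := hY.contMDiff.contMDiffAt
    rw [modelWithCornersSelf_prod, ← chartedSpaceSelf_prod] at h1
    convert! h1 with q
    simp
  obtain ⟨R, B, hR, hB, h1, h2, h3, h4, h5⟩ := Pool.Agent.Helper186.exists_evolution
    (Y := fun s x => Y (s, x)) hYm hK (fun p hp => h0 p hp)
  have conv : ∀ {f : ℝ × E → E}, ContMDiff (𝓘(ℝ, ℝ).prod 𝓘(ℝ, E)) 𝓘(ℝ, E) ∞ f → ContDiff ℝ ∞ f := by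
    intro f hf
    rw [← contMDiff_iff_contDiff, modelWithCornersSelf_prod, ← chartedSpaceSelf_prod]
    exact hf
  have hd : ∀ {c : ℝ → E} {s : ℝ} {v : E}, HasMFDerivAt 𝓘(ℝ, ℝ) 𝓘(ℝ, E) c s
      ((1 : ℝ →L[ℝ] ℝ).smulRight v) ↔ HasDerivAt c v s := by
    intro c s v
    have e : HasDerivAt c v s ↔ HasFDerivAt c ((1 : ℝ →L[ℝ] ℝ).smulRight v) s := by
      rw [hasDerivAt_iff_hasFDerivAt]
      have : (ContinuousLinearMap.toSpanSingleton ℝ v : ℝ →L[ℝ] E) =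
          (1 : ℝ →L[ℝ] ℝ).smulRight v := by
        ext
        simp
      rw [this]
    exact Iff.trans hasMFDerivAt_iff_hasFDerivAt e.symm
  refine ⟨R, B, conv hR, conv hB, h1, h2, h3, fun s x => hd.1 (h4 s x), fun c hc s => ?_⟩
  refine h5 c (-(|s| + 1)) (|s| + 1) ⟨by have := abs_nonneg s; linarith, by positivity⟩
    (fun t _ => hd.2 (hc t)) s ⟨?_, ?_⟩
  · have := neg_abs_le s
    linarith
  · have := le_abs_self s
    linarith

end Pool.Agent.H820.ML
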