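import Pool.Agent.H820.ML.Path

/-!
The isotopy generated by the vector field of Moser's method.
-/

set_option autoImplicit false

open Set Topology Filter
open scoped ContDiff

noncomputable section

namespace Pool.Agent.H820.ML

open Pool.Agent.H820.PC

/-- a cut-off function -/
def chi (z : C3) : ℝ :=
  Real.smoothTransition (8 * ‖z‖ ^ 2 - 1) * Real.smoothTransition (5 - ‖z‖ ^ 2)

theorem contDiff_chi : ContDiff ℝ ∞ chi := by
  have h1 : ContDiff ℝ ∞ (fun z : C3 => ‖z‖ ^ 2) := contDiff_norm_sq ℝ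
  exact (Real.smoothTransition.contDiff.comp ((contDiff_const.mul h1).sub contDiff_const)).mul
    (Real.smoothTransition.contDiff.comp (contDiff_const.sub h1))

theorem chi_one {z : C3} (h1 : 1 / 4 ≤ ‖z‖ ^ 2) (h2 : ‖z‖ ^ 2 ≤ 4) : chi z = 1 := by
  unfold chi
  rw [Real.smoothTransition.one_of_one_le (by linarith),
    Real.smoothTransition.one_of_one_le (by linarith), one_mul]

theorem chi_zero {z : C3} (h : ‖z‖ ^ 2 ≤ 1 / 8 ∨ 5 ≤ ‖z‖ ^ 2) : chi z = 0 := by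
  unfold chi
  rcases h with h | h
  · rw [Real.smoothTransition.zero_of_nonpos (by linarith), zero_mul]
  · rw [Real.smoothTransition.zero_of_nonpos (x := 5 - ‖z‖ ^ 2) (by linarith), mul_zero]

theorem chi_norm {z w : C3} (h : ‖z‖ = ‖w‖) : chi z = chi w := by
  unfold chi
  rw [h]

/-- the vector field with the cut-off -/
def Yc (a : Cov2) (p : ℝ × C3) : C3 := chi p.2 • Y a p

variable {a : Cov2}

theorem contDiff_Yc (h : IsPath a) : ContDiff ℝ ∞ (Yc a) := by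
  rw [contDiff_iff_contDiffAt]
  intro p
  by_cases hp : p.2 = 0
  · have h1 : Yc a =ᶠ[𝓝 p] fun _ => 0 := by
      have h2 : Continuous fun q : ℝ × C3 => ‖q.2‖ ^ 2 := by fun_prop
      have h3 : ∀ᶠ q in 𝓝 p, ‖q.2‖ ^ 2 < 1 / 8 := by
        apply h2.continuousAt.eventually (gt_mem_nhds _)
        show ‖p.2‖ ^ 2 < 1 / 8
        rw [hp, norm_zero]
        norm_num
      filter_upwards [h3] with q hq
      unfold Yc
      rw [chi_zero (Or.inl hq.le), zero_smul]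
    exact contDiffAt_const.congr_of_eventuallyEq h1
  · exact ((contDiff_chi.comp contDiff_snd).contDiffAt).smul
      ((contDiffOn_Y h).contDiffAt (isOpen_UU.mem_nhds hp))

theorem inner_Yc (h : IsPath a) (p : ℝ × C3) : inner ℝ p.2 (Yc a p) = 0 := by
  by_cases hp : p.2 = 0
  · rw [hp, inner_zero_left]
  · unfold Yc
    rw [inner_smul_right, (h.Y_prop hp).1, mul_zero]

theorem Yc_scale (h : IsPath a) {c : ℂ} (hc : c ≠ 0) {s : ℝ} {z : C3} (hz : chi (c • z) = chi z) :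
    Yc a (s, c • z) = c • Yc a (s, z) := by
  unfold Yc
  simp only
  by_cases hz0 : z = 0
  · rw [hz0, smul_zero]
    have : chi (0 : C3) = 0 := chi_zero (Or.inl (by rw [norm_zero]; norm_num))
    rw [this, zero_smul, smul_zero]
  · rw [hz, h.Y_scale hc hz0, smul_comm]

/-- the flow of the vector field -/
structure IsFlow (a : Cov2) (R B : ℝ × C3 → C3) : Prop where
  smoothR : ContDiff ℝ ∞ R
  smoothB : ContDiff ℝ ∞ B
  zero : ∀ x, R (0, x) = x
  left : ∀ s x, B (s, R (s, x)) = x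
  right : ∀ s x, R (s, B (s, x)) = x
  deriv : ∀ s x, HasDerivAt (fun s => R (s, x)) (Yc a (s, R (s, x))) s
  unique : ∀ c : ℝ → C3, (∀ s, HasDerivAt c (Yc a (s, c s)) s) → ∀ s, c s = R (s, c 0)

theorem exists_isFlow (h : IsPath a) : ∃ R B, IsFlow a R B := by
  have hK : IsCompact (Icc (0 : ℝ) 1 ×ˢ {z : C3 | 1 / 8 ≤ ‖z‖ ^ 2 ∧ ‖z‖ ^ 2 ≤ 5}) := by
    apply isCompact_Icc.prod
    apply Metric.isCompact_of_isClosed_isBounded
    · have h2 : Continuous fun z : C3 => ‖z‖ ^ 2 := by fun_prop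
      exact (isClosed_le continuous_const h2).inter (isClosed_le h2 continuous_const)
    · rw [isBounded_iff_forall_norm_le]
      refine ⟨3, fun z hz => ?_⟩
      have h3 := hz.2
      by_contra hcon
      have : 3 < ‖z‖ := not_le.1 hcon
      nlinarith
  obtain ⟨R, B, h1, h2, h3, h4, h5, h6, h7⟩ := exists_flow (contDiff_Yc h) hK (by
    intro p hp
    by_cases hz : p.2 = 0
    · unfold Yc
      rw [hz, chi_zero (Or.inl (by rw [norm_zero]; norm_num)), zero_smul]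
    · by_cases hs : p.1 ∈ Icc (0 : ℝ) 1
      · have : ¬ (1 / 8 ≤ ‖p.2‖ ^ 2 ∧ ‖p.2‖ ^ 2 ≤ 5) := fun hh => hp ⟨hs, hh⟩
        unfold Yc
        rw [chi_zero, zero_smul]
        by_contra hcon
        rw [not_or, not_le, not_le] at hcon
        exact this ⟨hcon.1.le, hcon.2.le⟩
      · unfold Yc
        rw [h.Y_out hz hs, smul_zero])
  exact ⟨R, B, h1, h2, h3, h4, h5, h6, h7⟩

variable {R B : ℝ × C3 → C3}

theorem IsFlow.norm (hf : IsFlow a R B) (h : IsPath a) (s : ℝ) (x : C3) : ‖R (s, x)‖ = ‖x‖ := by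
  have hd : ∀ s, HasDerivAt (fun s => ‖R (s, x)‖ ^ 2) 0 s := by
    intro s
    have h1 := (hf.deriv s x).norm_sq
    have h2 := inner_Yc h (s, R (s, x))
    simp only at h2
    rw [h2, mul_zero] at h1
    exact h1
  have h2 := is_const_of_deriv_eq_zero (f := fun s => ‖R (s, x)‖ ^ 2)
    (fun t => (hd t).differentiableAt) (fun t => (hd t).deriv) s 0
  simp only [hf.zero] at h2
  exact (sq_eq_sq₀ (norm_nonneg _) (norm_nonneg _)).1 h2

theorem IsFlow.normB (hf : IsFlow a R B) (h : IsPath a) (s : ℝ) (x : C3) : ‖B (s, x)‖ = ‖x‖ := by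
  rw [← hf.norm h s (B (s, x)), hf.right]

theorem IsFlow.scale (hf : IsFlow a R B) (h : IsPath a) {c : ℂ} (hc : c ≠ 0) {x : C3}
    (hx : chi (c • x) = chi x) (s : ℝ) : R (s, c • x) = c • R (s, x) := by
  have h1 := hf.unique (fun s => c • R (s, x)) (fun s => by
    have h2 := (hf.deriv s x).const_smul c
    rw [Yc_scale h hc]
    · exact h2
    · rw [chi_norm (z := c • R (s, x)) (w := c • x) (by rw [norm_smul, norm_smul, hf.norm h]),
        chi_norm (z := R (s, x)) (w := x) (hf.norm h s x)]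
      exact hx) s
  simp only [hf.zero] at h1
  exact h1.symm

theorem IsFlow.scaleB (hf : IsFlow a R B) (h : IsPath a) {c : ℂ} (hc : c ≠ 0) {x : C3}
    (hx : chi (c • x) = chi x) (s : ℝ) : B (s, c • x) = c • B (s, x) := by
  have h1 := hf.scale h hc (x := B (s, x)) (by
    rw [chi_norm (z := c • B (s, x)) (w := c • x) (by rw [norm_smul, norm_smul, hf.normB h]),
        chi_norm (z := B (s, x)) (w := x) (hf.normB h s x)]
    exact hx) s
  rw [hf.right] at h1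
  rw [← h1, hf.left]

/-- the homogeneous extension of the maps from the unit sphere -/
def ext (R : ℝ × C3 → C3) (s : ℝ) (z : C3) : C3 := (‖z‖ : ℂ) • R (s, (‖z‖ : ℂ)⁻¹ • z)

theorem ext_ofReal (R : ℝ × C3 → C3) (s : ℝ) (z : C3) :
    ext R s z = ‖z‖ • R (s, ‖z‖⁻¹ • z) := by
  unfold ext
  rw [← Complex.ofReal_inv]
  simp only [Complex.coe_smul]

theorem contDiffOn_ext (hR : ContDiff ℝ ∞ R) :
    ContDiffOn ℝ ∞ (fun p : ℝ × C3 => ext R p.1 p.2) UU := by
  have h1 : ContDiffOn ℝ ∞ (fun p : ℝ × C3 => ‖p.2‖) UU := by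
    intro p hp
    exact ((contDiffAt_norm ℝ hp).comp p contDiffAt_snd).contDiffWithinAt
  have h2 : ContDiffOn ℝ ∞ (fun p : ℝ × C3 => ‖p.2‖⁻¹) UU :=
    h1.inv fun p hp => norm_ne_zero_iff.2 hp
  have h3 : ContDiffOn ℝ ∞ (fun p : ℝ × C3 => (p.1, ‖p.2‖⁻¹ • p.2)) UU :=
    contDiffOn_fst.prodMk (h2.smul contDiffOn_snd)
  have h4 := h1.smul (hR.comp_contDiffOn h3)
  refine h4.congr fun p _ => ?_
  exact ext_ofReal R p.1 p.2

theorem chi_unit {x : C3} (hx : ‖x‖ = 1) : chi x = 1 :=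
  chi_one (by rw [hx]; norm_num) (by rw [hx]; norm_num)

theorem ext_scale {R : ℝ × C3 → C3}
    (hs : ∀ (c : ℂ) (x : C3) (s : ℝ), ‖c‖ = 1 → ‖x‖ = 1 → R (s, c • x) = c • R (s, x)) (s : ℝ)
    (c : ℂ) (z : C3) : ext R s (c • z) = c • ext R s z := by
  by_cases hc : c = 0
  · unfold ext
    rw [hc]
    simp
  by_cases hz : z = 0
  · unfold ext
    rw [hz]
    simp
  have hc0 : ‖c‖ ≠ 0 := norm_ne_zero_iff.2 hc
  have hz0 : ‖z‖ ≠ 0 := norm_ne_zero_iff.2 hz
  have hcC : ((‖c‖ : ℝ) : ℂ) ≠ 0 := by exact_mod_cast hc0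
  have hzC : ((‖z‖ : ℝ) : ℂ) ≠ 0 := by exact_mod_cast hz0
  have e1 : ((‖c • z‖ : ℝ) : ℂ)⁻¹ • (c • z) = (c * (‖c‖ : ℂ)⁻¹) • ((‖z‖ : ℂ)⁻¹ • z) := by
    rw [norm_smul, smul_smul, smul_smul]
    congr 1
    push_cast
    field_simp
  unfold ext
  rw [e1, hs (c * (‖c‖ : ℂ)⁻¹) ((‖z‖ : ℂ)⁻¹ • z) s (by
    rw [norm_mul, norm_inv, Complex.norm_real, norm_norm, mul_inv_cancel₀ hc0])
    (norm_unit hz), smul_smul, norm_smul, smul_smul]
  congr 1
  push_cast
  field_simp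

theorem norm_ext {R : ℝ × C3 → C3} (hn : ∀ s x, ‖R (s, x)‖ = ‖x‖) (s : ℝ) (z : C3) :
    ‖ext R s z‖ = ‖z‖ := by
  by_cases hz : z = 0
  · rw [hz]
    unfold ext
    simp
  · unfold ext
    rw [norm_smul, hn, norm_unit hz, mul_one, Complex.norm_real, norm_norm]

theorem ext_left {R B : ℝ × C3 → C3} (hn : ∀ s x, ‖R (s, x)‖ = ‖x‖)
    (h : ∀ s x, B (s, R (s, x)) = x) (s : ℝ) (z : C3) : ext B s (ext R s z) = z := by
  by_cases hz : z = 0
  · rw [hz]
    unfold ext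
    simp
  · have hz0 : ‖z‖ ≠ 0 := norm_ne_zero_iff.2 hz
    have hzC : ((‖z‖ : ℝ) : ℂ) ≠ 0 := by exact_mod_cast hz0
    have e1 : ext B s (ext R s z) = (‖z‖ : ℂ) • B (s, (‖z‖ : ℂ)⁻¹ • ext R s z) := by
      show (‖ext R s z‖ : ℂ) • B (s, (‖ext R s z‖ : ℂ)⁻¹ • ext R s z) = _
      rw [norm_ext hn]
    rw [e1]
    unfold ext
    rw [smul_smul, inv_mul_cancel₀ hzC, one_smul, h, smul_smul, mul_inv_cancel₀ hzC, one_smul]

/-- the open shell -/
def Shell : Set C3 := {z | 1 / 2 < ‖z‖ ∧ ‖z‖ < 2}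

theorem isOpen_Shell : IsOpen Shell :=
  (isOpen_lt continuous_const continuous_norm).inter (isOpen_lt continuous_norm continuous_const)

theorem shell_ne {z : C3} (hz : z ∈ Shell) : z ≠ 0 := by
  intro h
  have := hz.1
  rw [h, norm_zero] at this
  norm_num at this

theorem chi_shell {z : C3} (hz : z ∈ Shell) : chi z = 1 := by
  obtain ⟨h1, h2⟩ := hz
  exact chi_one (by nlinarith) (by nlinarith)

theorem IsFlow.ext_shell (hf : IsFlow a R B) (h : IsPath a) (s : ℝ) {z : C3} (hz : z ∈ Shell) :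
    ext R s z = R (s, z) := by
  have hz0 : ‖z‖ ≠ 0 := norm_ne_zero_iff.2 (shell_ne hz)
  have hzC : ((‖z‖ : ℝ) : ℂ) ≠ 0 := by exact_mod_cast hz0
  have e : z = (‖z‖ : ℂ) • ((‖z‖ : ℂ)⁻¹ • z) := by
    rw [smul_smul, mul_inv_cancel₀ hzC, one_smul]
  unfold ext
  rw [← hf.scale h hzC (by rw [← e, chi_shell hz, chi_unit (norm_unit (shell_ne hz))]), ← e]

theorem IsFlow.mem_shell (hf : IsFlow a R B) (h : IsPath a) (s : ℝ) {z : C3} (hz : z ∈ Shell) :
    R (s, z) ∈ Shell := by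
  unfold Shell
  rw [mem_ofPred_eq, hf.norm h]
  exact hz

end Pool.Agent.H820.ML
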