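import Pool.Agent.H820.ML.Iso

/-!
The flow pulls the curvature forms back to the first one.
-/

set_option autoImplicit false

open Set Topology Filter
open scoped ContDiff

noncomputable section

namespace Pool.Agent.H820.ML

open Pool.Agent.H820.PC

variable {a : Cov2}

/-- the vector of a covector -/
def vec (b : C3 →L[ℝ] ℝ) : C3 := (InnerProductSpace.toDual ℝ C3).symm b

theorem inner_vec (b : C3 →L[ℝ] ℝ) (w : C3) : inner ℝ (vec b) w = b w :=
  InnerProductSpace.toDual_symm_apply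

theorem bl_vec : IsBoundedLinearMap ℝ vec where
  map_add b c := by
    apply ext_inner_right ℝ
    intro w
    rw [inner_add_left, inner_vec, inner_vec, inner_vec]
    rfl
  map_smul r b := by
    apply ext_inner_right ℝ
    intro w
    rw [inner_smul_left, inner_vec, inner_vec]
    rfl
  bound := ⟨1, one_pos, fun b => by
    rw [one_mul]
    exact (LinearIsometryEquiv.norm_map _ _).le⟩

/-- the path, with values in `ℂ³` -/
def A2 (a : Cov2) (p : ℝ × C3) : C3 := vec (a p)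

theorem IsPath.smoothA (h : IsPath a) : ContDiffOn ℝ ∞ (A2 a) UU :=
  bl_vec.contDiff.comp_contDiffOn h.smooth

theorem IsPath.fderivA (h : IsPath a) {p : ℝ × C3} (hp : p.2 ≠ 0) (x : ℝ × C3) (w : C3) :
    fderiv ℝ a p x w = inner ℝ (fderiv ℝ (A2 a) p x) w := by
  have h1 : HasFDerivAt (A2 a) (bl_vec.toContinuousLinearMap.comp (fderiv ℝ a p)) p :=
    (bl_vec.hasFDerivAt (x := a p)).comp p (h.diff hp).hasFDerivAt
  rw [h1.fderiv]
  exact (inner_vec _ _).symm

/-- the second derivative -/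
def D2 (a : Cov2) (p : ℝ × C3) : (ℝ × C3) →L[ℝ] (ℝ × C3) →L[ℝ] C3 :=
  fderiv ℝ (fderiv ℝ (A2 a)) p

theorem IsPath.hasD2 (h : IsPath a) {p : ℝ × C3} (hp : p.2 ≠ 0) :
    HasFDerivAt (fderiv ℝ (A2 a)) (D2 a p) p :=
  (((h.smoothA.fderiv_of_isOpen isOpen_UU (m := ∞) (by simp)).contDiffAt
    (isOpen_UU.mem_nhds hp)).differentiableAt (by simp)).hasFDerivAt

theorem IsPath.symm (h : IsPath a) {p : ℝ × C3} (hp : p.2 ≠ 0) (x y : ℝ × C3) :
    D2 a p x y = D2 a p y x :=
  ((h.smoothA.contDiffAt (isOpen_UU.mem_nhds hp)).isSymmSndFDerivAt two_le_inf) x y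

theorem IsPath.hasY (h : IsPath a) {p : ℝ × C3} (hp : p.2 ≠ 0) :
    HasFDerivAt (Y a) (fderiv ℝ (Y a) p) p :=
  (((contDiffOn_Y h).contDiffAt (isOpen_UU.mem_nhds hp)).differentiableAt (by simp)).hasFDerivAt

/-- the derivative of the equation of the vector field -/
theorem IsPath.deriv_eq (h : IsPath a) {p : ℝ × C3} (hp : p.2 ≠ 0) (x u : C3) :
    inner ℝ (D2 a p (0, x) (0, Y a p)) u
      + inner ℝ (fderiv ℝ (A2 a) p (0, fderiv ℝ (Y a) p (0, x))) u
      - (inner ℝ (D2 a p (0, x) (0, u)) (Y a p)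
        + inner ℝ (fderiv ℝ (A2 a) p (0, u)) (fderiv ℝ (Y a) p (0, x)))
      + inner ℝ (D2 a p (0, x) (1, 0)) u = 0 := by
  have hl : HasDerivAt (fun t : ℝ => p + t • ((0 : ℝ), x)) ((0 : ℝ), x) 0 := by
    have := ((hasDerivAt_id (0 : ℝ)).smul_const ((0 : ℝ), x)).const_add p
    simpa using this
  have hDA : HasDerivAt (fun t : ℝ => fderiv ℝ (A2 a) (p + t • ((0 : ℝ), x)))
      (D2 a p (0, x)) 0 := by
    have h4 : HasFDerivAt (fderiv ℝ (A2 a)) (D2 a p)
        ((fun t : ℝ => p + t • ((0 : ℝ), x)) 0) := by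
      simpa using h.hasD2 hp
    exact h4.comp_hasDerivAt 0 hl
  have hY : HasDerivAt (fun t : ℝ => Y a (p + t • ((0 : ℝ), x))) (fderiv ℝ (Y a) p (0, x)) 0 := by
    have h4 : HasFDerivAt (Y a) (fderiv ℝ (Y a) p) ((fun t : ℝ => p + t • ((0 : ℝ), x)) 0) := by
      simpa using h.hasY hp
    exact h4.comp_hasDerivAt 0 hl
  have h0Y : HasDerivAt (fun t : ℝ => ((0 : ℝ), Y a (p + t • ((0 : ℝ), x))))
      ((0 : ℝ), fderiv ℝ (Y a) p (0, x)) 0 := (hasDerivAt_const (0 : ℝ) (0 : ℝ)).prodMk hY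
  have hu := hasDerivAt_const (0 : ℝ) u
  have h0u := hasDerivAt_const (0 : ℝ) ((0 : ℝ), u)
  have h10 := hasDerivAt_const (0 : ℝ) ((1 : ℝ), (0 : C3))
  have t1 := (hDA.clm_apply h0Y).inner ℝ hu
  have t2 := (hDA.clm_apply h0u).inner ℝ hY
  have t3 := (hDA.clm_apply h10).inner ℝ hu
  have t := (t1.sub t2).add t3
  have hz : (fun t : ℝ =>
      inner ℝ (fderiv ℝ (A2 a) (p + t • ((0 : ℝ), x)) (0, Y a (p + t • ((0 : ℝ), x)))) u
      - inner ℝ (fderiv ℝ (A2 a) (p + t • ((0 : ℝ), x)) (0, u)) (Y a (p + t • ((0 : ℝ), x)))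
      + inner ℝ (fderiv ℝ (A2 a) (p + t • ((0 : ℝ), x)) (1, 0)) u) =ᶠ[𝓝 0] fun _ => 0 := by
    have hc : ContinuousAt (fun t : ℝ => p + t • ((0 : ℝ), x)) 0 := hl.continuousAt
    have hmem : UU ∈ 𝓝 ((fun t : ℝ => p + t • ((0 : ℝ), x)) 0) := by
      simpa using isOpen_UU.mem_nhds hp
    filter_upwards [hc hmem] with t ht
    have := (h.Y_prop (p := p + t • ((0 : ℝ), x)) ht).2.2 u
    unfold Om dot at this
    rw [h.fderivA ht, h.fderivA ht, h.fderivA ht] at this
    linarith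
  have hfin := (t.congr_of_eventuallyEq hz.symm).unique (hasDerivAt_const (0 : ℝ) (0 : ℝ))
  simp only [zero_smul, add_zero, map_zero, inner_zero_right, zero_add] at hfin
  rw [inner_add_left] at hfin
  linarith

variable {R B : ℝ × C3 → C3}

/-- the derivative of the flow in a space direction -/
def DR (R : ℝ × C3 → C3) (s : ℝ) (z v : C3) : C3 := fderiv ℝ R (s, z) (0, v)

theorem fderiv_Yc {s : ℝ} {q : C3} (hq : q ∈ Shell) :
    fderiv ℝ (Yc a) (s, q) = fderiv ℝ (Y a) (s, q) := by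
  apply Filter.EventuallyEq.fderiv_eq
  have h1 : {p : ℝ × C3 | p.2 ∈ Shell} ∈ 𝓝 (s, q) :=
    (isOpen_Shell.preimage continuous_snd).mem_nhds hq
  filter_upwards [h1] with p hp
  unfold Yc
  rw [chi_shell hp, one_smul]

theorem IsFlow.hasDR (hf : IsFlow a R B) (h : IsPath a) {z : C3} (hz : z ∈ Shell) (s : ℝ)
    (v : C3) : HasDerivAt (fun s => DR R s z v)
      (fderiv ℝ (Y a) (s, R (s, z)) (0, DR R s z v)) s := by
  have hR1 : ContDiff ℝ ∞ (fderiv ℝ R) := hf.smoothR.fderiv_right (by simp)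
  have hR2 : HasFDerivAt (fderiv ℝ R) (fderiv ℝ (fderiv ℝ R) (s, z)) (s, z) :=
    (hR1.differentiable (by simp) (s, z)).hasFDerivAt
  have hsym : ∀ x y, fderiv ℝ (fderiv ℝ R) (s, z) x y = fderiv ℝ (fderiv ℝ R) (s, z) y x :=
    fun x y => (hf.smoothR.contDiffAt.isSymmSndFDerivAt two_le_inf) x y
  have hl : HasDerivAt (fun s : ℝ => (s, z)) ((1 : ℝ), (0 : C3)) s :=
    (hasDerivAt_id s).prodMk (hasDerivAt_const s z)
  have h1 : HasDerivAt (fun s : ℝ => fderiv ℝ R (s, z))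
      (fderiv ℝ (fderiv ℝ R) (s, z) (1, 0)) s := hR2.comp_hasDerivAt s hl
  have h2 := h1.clm_apply (hasDerivAt_const s ((0 : ℝ), v))
  rw [map_zero, add_zero, hsym] at h2
  -- the equation of the flow
  have h3 : (fun p : ℝ × C3 => fderiv ℝ R p (1, 0)) = fun p => Yc a (p.1, R p) := by
    funext p
    have e1 : HasDerivAt (fun s => R (s, p.2)) (fderiv ℝ R p (1, 0)) p.1 := by
      have e2 : HasFDerivAt R (fderiv ℝ R p) ((fun s : ℝ => (s, p.2)) p.1) :=
        (hf.smoothR.differentiable (by simp) p).hasFDerivAt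
      exact e2.comp_hasDerivAt p.1 ((hasDerivAt_id p.1).prodMk (hasDerivAt_const p.1 p.2))
    exact e1.unique (hf.deriv p.1 p.2)
  have h4 : HasFDerivAt (fun p : ℝ × C3 => fderiv ℝ R p (1, 0))
      ((fderiv ℝ (fderiv ℝ R) (s, z)).flip (1, 0)) (s, z) := by
    have := hR2.clm_apply (hasFDerivAt_const ((1 : ℝ), (0 : C3)) (s, z))
    simpa using this
  have h5 : HasFDerivAt (fun p : ℝ × C3 => Yc a (p.1, R p))
      ((fderiv ℝ (Yc a) (s, R (s, z))).comp
        ((ContinuousLinearMap.fst ℝ ℝ C3).prod (fderiv ℝ R (s, z)))) (s, z) := by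
    have e1 : HasFDerivAt (Yc a) (fderiv ℝ (Yc a) (s, R (s, z)))
        ((fun p : ℝ × C3 => (p.1, R p)) (s, z)) :=
      ((contDiff_Yc h).differentiable (by simp) _).hasFDerivAt
    have e2 : HasFDerivAt (fun p : ℝ × C3 => (p.1, R p))
        ((ContinuousLinearMap.fst ℝ ℝ C3).prod (fderiv ℝ R (s, z))) (s, z) :=
      hasFDerivAt_fst.prodMk (hf.smoothR.differentiable (by simp) _).hasFDerivAt
    exact e1.comp (s, z) e2
  rw [h3] at h4
  have h6 := congrArg (fun L : (ℝ × C3) →L[ℝ] C3 => L (0, v)) (h4.unique h5)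
  have h7 : fderiv ℝ (fderiv ℝ R) (s, z) (0, v) (1, 0) =
      fderiv ℝ (Yc a) (s, R (s, z)) (0, DR R s z v) := h6
  rw [h7, fderiv_Yc (hf.mem_shell h s hz)] at h2
  exact h2

theorem IsPath.om_inner (h : IsPath a) {p : ℝ × C3} (hp : p.2 ≠ 0) (v w : C3) :
    Om a p v w = inner ℝ (fderiv ℝ (A2 a) p (0, v)) w - inner ℝ (fderiv ℝ (A2 a) p (0, w)) v := by
  unfold Om
  rw [h.fderivA hp, h.fderivA hp]

/-- **Moser's method.** -/
theorem IsFlow.om_const (hf : IsFlow a R B) (h : IsPath a) {z : C3} (hz : z ∈ Shell) (v w : C3)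
    (s : ℝ) : Om a (s, R (s, z)) (DR R s z v) (DR R s z w) = Om a (0, z) v w := by
  have he : (fun s => Om a (s, R (s, z)) (DR R s z v) (DR R s z w)) = fun s =>
      inner ℝ (fderiv ℝ (A2 a) (s, R (s, z)) (0, DR R s z v)) (DR R s z w) -
      inner ℝ (fderiv ℝ (A2 a) (s, R (s, z)) (0, DR R s z w)) (DR R s z v) := by
    funext s
    exact h.om_inner (p := (s, R (s, z))) (shell_ne (hf.mem_shell h s hz)) _ _
  have hd : ∀ s, HasDerivAt
      (fun s => Om a (s, R (s, z)) (DR R s z v) (DR R s z w)) 0 s := by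
    intro s
    rw [he]
    have hq := hf.mem_shell h s hz
    have hp : ((s, R (s, z)) : ℝ × C3).2 ≠ 0 := shell_ne hq
    have hYY : Yc a (s, R (s, z)) = Y a (s, R (s, z)) := by
      unfold Yc
      rw [chi_shell hq, one_smul]
    have hg : HasDerivAt (fun s => (s, R (s, z))) ((1 : ℝ), Y a (s, R (s, z))) s := by
      have := (hasDerivAt_id s).prodMk (hf.deriv s z)
      rw [hYY] at this
      exact this
    have hDA : HasDerivAt (fun s => fderiv ℝ (A2 a) (s, R (s, z)))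
        (D2 a (s, R (s, z)) (1, Y a (s, R (s, z)))) s :=
      HasFDerivAt.comp_hasDerivAt (l := fderiv ℝ (A2 a)) s (h.hasD2 hp) hg
    have hV := hf.hasDR h hz s v
    have hW := hf.hasDR h hz s w
    have h0V := (hasDerivAt_const s (0 : ℝ)).prodMk hV
    have h0W := (hasDerivAt_const s (0 : ℝ)).prodMk hW
    have t1 := (hDA.clm_apply h0V).inner ℝ hW
    have t2 := (hDA.clm_apply h0W).inner ℝ hV
    have t := t1.sub t2
    refine t.congr_deriv ?_
    set p : ℝ × C3 := (s, R (s, z)) with hpdef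
    set V := DR R s z v with hVdef
    set W := DR R s z w with hWdef
    have e1 := h.deriv_eq hp V W
    have e2 := h.deriv_eq hp W V
    have e3 : ((1 : ℝ), Y a p) = (1, 0) + (0, Y a p) := by simp
    rw [e3, map_add]
    simp only [add_apply, inner_add_left]
    rw [h.symm hp (1, 0) (0, V), h.symm hp (1, 0) (0, W), h.symm hp (0, Y a p) (0, V),
      h.symm hp (0, Y a p) (0, W)]
    rw [h.symm hp (0, W) (0, V)] at e2
    have i1 := real_inner_comm (fderiv ℝ (A2 a) p (0, W)) (fderiv ℝ (Y a) p (0, V))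
    linarith
  have h2 := is_const_of_deriv_eq_zero
    (f := fun s => Om a (s, R (s, z)) (DR R s z v) (DR R s z w))
    (fun t => (hd t).differentiableAt) (fun t => (hd t).deriv) s 0
  have h3 : ∀ v, DR R 0 z v = v := by
    intro v
    unfold DR
    have e1 : HasFDerivAt (fun x : C3 => R (0, x))
        ((fderiv ℝ R (0, z)).comp (ContinuousLinearMap.inr ℝ ℝ C3)) z := by
      have e2 : HasFDerivAt R (fderiv ℝ R (0, z)) ((fun x : C3 => ((0 : ℝ), x)) z) :=
        (hf.smoothR.differentiable (by simp) _).hasFDerivAt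
      exact e2.comp z (hasFDerivAt_prodMk_right 0 z)
    have e3 : (fun x : C3 => R (0, x)) = id := by
      funext x
      exact hf.zero x
    rw [e3] at e1
    exact (congrArg (fun L : C3 →L[ℝ] C3 => L v) (e1.unique (hasFDerivAt_id z)))
  have h4 : Om a (s, R (s, z)) (DR R s z v) (DR R s z w) =
      Om a (0, R (0, z)) (DR R 0 z v) (DR R 0 z w) := h2
  rw [h4, hf.zero, h3, h3]

end Pool.Agent.H820.ML
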