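import Pool.Agent.H820.PC.Final
import Pool.Agent.H820.ML.Flow

/-!
Paths of connection forms and the vector field of Moser's method.
-/

set_option autoImplicit false

open Set Topology Filter
open scoped ContDiff

noncomputable section

namespace Pool.Agent.H820.ML

open Pool.Agent.H820.PC

/-- `ℝ × (ℂ³ ∖ 0)` -/
def UU : Set (ℝ × C3) := {p | p.2 ≠ 0}

theorem isOpen_UU : IsOpen UU := isOpen_ne.preimage continuous_snd

/-- a path of one-forms, as a function of two variables -/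
abbrev Cov2 : Type := ℝ × C3 → C3 →L[ℝ] ℝ

/-- the two-form `d a` on pairs of vectors -/
def Om (a : Cov2) (p : ℝ × C3) (v w : C3) : ℝ :=
  fderiv ℝ a p (0, v) w - fderiv ℝ a p (0, w) v

/-- the derivative in the direction of the parameter -/
def dot (a : Cov2) (p : ℝ × C3) : C3 →L[ℝ] ℝ := fderiv ℝ a p (1, 0)

/-- a smooth path of connection forms, constant off the unit interval, with nondegenerate
curvature -/
structure IsPath (a : Cov2) : Prop where
  smooth : ContDiffOn ℝ ∞ a UU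
  invariant : ∀ (s : ℝ) (c : ℂ) (z v : C3), c ≠ 0 → z ≠ 0 → a (s, c • z) (c • v) = a (s, z) v
  vertical : ∃ l : ℂ → ℝ, ∀ (s : ℝ) (z : C3) (c : ℂ), z ≠ 0 → a (s, z) (c • z) = l c
  left : ∀ (s : ℝ) (z : C3), s ≤ 0 → z ≠ 0 → a (s, z) = a (0, z)
  right : ∀ (s : ℝ) (z : C3), 1 ≤ s → z ≠ 0 → a (s, z) = a (1, z)
  nondeg : ∀ (s : ℝ) (z u : C3), z ≠ 0 → (∀ w, Om a (s, z) u w = 0) → ∃ c : ℂ, u = c • z

section

variable {a : Cov2}

theorem IsPath.diff (h : IsPath a) {p : ℝ × C3} (hp : p.2 ≠ 0) : DifferentiableAt ℝ a p :=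
  (h.smooth.contDiffAt (isOpen_UU.mem_nhds hp)).differentiableAt (by simp)

theorem IsPath.slice (h : IsPath a) {p : ℝ × C3} (hp : p.2 ≠ 0) :
    HasFDerivAt (fun z => a (p.1, z)) ((fderiv ℝ a p).comp (ContinuousLinearMap.inr ℝ ℝ C3))
      p.2 := by
  have h1 : HasFDerivAt a (fderiv ℝ a p) ((fun z : C3 => (p.1, z)) p.2) := (h.diff hp).hasFDerivAt
  have h2 : HasFDerivAt (fun z : C3 => (p.1, z)) (ContinuousLinearMap.inr ℝ ℝ C3) p.2 :=
    hasFDerivAt_prodMk_right p.1 p.2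
  exact h1.comp p.2 h2

theorem IsPath.time (h : IsPath a) {p : ℝ × C3} (hp : p.2 ≠ 0) :
    HasDerivAt (fun s => a (s, p.2)) (dot a p) p.1 := by
  have h1 : HasFDerivAt a (fderiv ℝ a p) ((fun s : ℝ => (s, p.2)) p.1) := (h.diff hp).hasFDerivAt
  have h2 : HasDerivAt (fun s : ℝ => (s, p.2)) ((1 : ℝ), (0 : C3)) p.1 :=
    (hasDerivAt_id p.1).prodMk (hasDerivAt_const p.1 p.2)
  exact h1.comp_hasDerivAt p.1 h2

theorem IsPath.isConn (h : IsPath a) (s : ℝ) : IsConn (cov fun z => a (s, z)) := by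
  refine ⟨?_, ?_, ?_⟩
  · apply contDiffOn_cov
    have h1 : ContDiffOn ℝ ∞ (fun z : C3 => (s, z)) Dom := by fun_prop
    exact h.smooth.comp h1 fun z hz => hz
  · intro c z v hc hz
    rw [cov_apply', cov_apply']
    exact h.invariant s c z (v 0) hc hz
  · obtain ⟨l, hl⟩ := h.vertical
    exact ⟨l, fun z c hz => by rw [cov_apply]; exact hl s z c hz⟩

theorem IsPath.om_eq (h : IsPath a) {p : ℝ × C3} (hp : p.2 ≠ 0) (v w : C3) :
    extDeriv (cov fun z => a (p.1, z)) p.2 ![v, w] = Om a p v w := by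
  rw [extDeriv_cov (h.slice hp)]
  rfl

theorem IsPath.om_vertical (h : IsPath a) {p : ℝ × C3} (hp : p.2 ≠ 0) (c : ℂ) (w : C3) :
    Om a p (c • p.2) w = 0 := by
  rw [← h.om_eq hp]
  exact dB_horizontal (h.isConn p.1) hp c w

theorem om_swap (p : ℝ × C3) (v w : C3) : Om a p v w = -Om a p w v := by
  unfold Om
  ring

theorem IsPath.om_scale (h : IsPath a) {c : ℂ} (hc : c ≠ 0) {s : ℝ} {z : C3} (hz : z ≠ 0)
    (v w : C3) : Om a (s, c • z) (c • v) (c • w) = Om a (s, z) v w := by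
  have hcz : c • z ≠ 0 := smul_ne_zero hc hz
  rw [← h.om_eq (p := (s, c • z)) hcz, ← h.om_eq (p := (s, z)) hz]
  have := dB_invariant (h.isConn s) hc hz ![v, w]
  rw [← this]
  congr 1
  funext i
  fin_cases i <;> rfl

theorem IsPath.dot_vertical (h : IsPath a) {p : ℝ × C3} (hp : p.2 ≠ 0) (c : ℂ) :
    dot a p (c • p.2) = 0 := by
  obtain ⟨l, hl⟩ := h.vertical
  have h1 := (h.time hp).clm_apply (hasDerivAt_const p.1 (c • p.2))
  have h2 : (fun s : ℝ => a (s, p.2) (c • p.2)) = fun _ => l c := by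
    funext s
    exact hl s p.2 c hp
  rw [h2] at h1
  have h3 := h1.unique (hasDerivAt_const p.1 (l c))
  simpa using h3

theorem IsPath.dot_scale (h : IsPath a) {c : ℂ} (hc : c ≠ 0) {s : ℝ} {z : C3} (hz : z ≠ 0)
    (w : C3) : dot a (s, c • z) (c • w) = dot a (s, z) w := by
  have hcz : c • z ≠ 0 := smul_ne_zero hc hz
  have h1 := (h.time (p := (s, c • z)) hcz).clm_apply (hasDerivAt_const s (c • w))
  have h2 := (h.time (p := (s, z)) hz).clm_apply (hasDerivAt_const s w)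
  have h3 : (fun s : ℝ => a (s, c • z) (c • w)) = fun s : ℝ => a (s, z) w := by
    funext t
    exact h.invariant t c z w hc hz
  have h1' : HasDerivAt (fun s : ℝ => a (s, c • z) (c • w))
      (dot a (s, c • z) (c • w)) s := by simpa using h1
  have h2' : HasDerivAt (fun s : ℝ => a (s, z) w) (dot a (s, z) w) s := by simpa using h2
  rw [h3] at h1'
  exact h1'.unique h2'

theorem IsPath.dot_out (h : IsPath a) {p : ℝ × C3} (hp : p.2 ≠ 0) (hs : p.1 ∉ Icc (0 : ℝ) 1) :
    dot a p = 0 := by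
  have h1 := h.time hp
  rcases lt_or_ge p.1 0 with h0 | h0
  · have h2 : (fun s => a (s, p.2)) =ᶠ[𝓝 p.1] fun _ => a (0, p.2) := by
      filter_upwards [Iio_mem_nhds h0] with s hs
      exact h.left s p.2 (le_of_lt hs) hp
    exact (h1.congr_of_eventuallyEq h2.symm).unique (hasDerivAt_const _ _)
  · have h0' : 1 < p.1 := by
      by_contra hcon
      exact hs ⟨h0, not_lt.1 hcon⟩
    have h2 : (fun s => a (s, p.2)) =ᶠ[𝓝 p.1] fun _ => a (1, p.2) := by
      filter_upwards [Ioi_mem_nhds h0'] with s hs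
      exact h.right s p.2 (le_of_lt hs) hp
    exact (h1.congr_of_eventuallyEq h2.symm).unique (hasDerivAt_const _ _)

/-- the bilinear form which defines the vector field -/
def Bm (a : Cov2) (p : ℝ × C3) : C3 →L[ℝ] C3 →L[ℝ] ℝ :=
  (fderiv ℝ a p).comp (ContinuousLinearMap.inr ℝ ℝ C3) -
    ((fderiv ℝ a p).comp (ContinuousLinearMap.inr ℝ ℝ C3)).flip +
    ((ip p.2).smulRight (ip p.2) + (tau p.2).smulRight (tau p.2))

theorem Bm_apply (p : ℝ × C3) (v w : C3) :
    Bm a p v w = Om a p v w + (inner ℝ p.2 v * inner ℝ p.2 w +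
      inner ℝ (J p.2) v * inner ℝ (J p.2) w) := rfl

theorem inner_self_J (z : C3) : inner ℝ z (J z) = 0 := by
  rw [real_inner_comm]
  exact inner_J_self z

theorem inner_J_J_self (z : C3) : inner ℝ (J z) (J z) = ‖z‖ ^ 2 := by
  rw [inner_J_J, real_inner_self_eq_norm_sq]

theorem J_eq_smul (z : C3) : J z = Complex.I • z := rfl

theorem IsPath.om_z (h : IsPath a) {p : ℝ × C3} (hp : p.2 ≠ 0) (v : C3) : Om a p v p.2 = 0 := by
  rw [om_swap]
  have := h.om_vertical hp 1 v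
  rw [one_smul] at this
  rw [this, neg_zero]

theorem IsPath.om_Jz (h : IsPath a) {p : ℝ × C3} (hp : p.2 ≠ 0) (v : C3) :
    Om a p v (J p.2) = 0 := by
  rw [om_swap]
  have := h.om_vertical hp Complex.I v
  rw [J_eq_smul, this, neg_zero]

/-- a solution of the equation is horizontal, and contracts the curvature to the given form -/
theorem IsPath.solve (h : IsPath a) {p : ℝ × C3} (hp : p.2 ≠ 0) {u : C3} {b : C3 →L[ℝ] ℝ}
    (hb : ∀ c : ℂ, b (c • p.2) = 0) (hu : Bm a p u = b) :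
    inner ℝ p.2 u = 0 ∧ inner ℝ (J p.2) u = 0 ∧ ∀ w, Om a p u w = b w := by
  have hn : ‖p.2‖ ^ 2 ≠ 0 := by
    have := norm_ne_zero_iff.2 hp
    positivity
  have h1 : inner ℝ p.2 u = 0 := by
    have := congrArg (fun f : C3 →L[ℝ] ℝ => f p.2) hu
    simp only [Bm_apply] at this
    have hb1 := hb 1
    rw [one_smul] at hb1
    rw [h.om_z hp, inner_J_self, real_inner_self_eq_norm_sq, hb1] at this
    have h2 : inner ℝ p.2 u * ‖p.2‖ ^ 2 = 0 := by linarith
    exact (mul_eq_zero.1 h2).resolve_right hn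
  have h2 : inner ℝ (J p.2) u = 0 := by
    have := congrArg (fun f : C3 →L[ℝ] ℝ => f (J p.2)) hu
    simp only [Bm_apply] at this
    have hb1 := hb Complex.I
    rw [← J_eq_smul] at hb1
    rw [h.om_Jz hp, inner_self_J, inner_J_J_self, hb1] at this
    have h2 : inner ℝ (J p.2) u * ‖p.2‖ ^ 2 = 0 := by linarith
    exact (mul_eq_zero.1 h2).resolve_right hn
  refine ⟨h1, h2, fun w => ?_⟩
  have := congrArg (fun f : C3 →L[ℝ] ℝ => f w) hu
  simp only [Bm_apply, h1, h2] at this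
  linarith

theorem IsPath.invertible (h : IsPath a) {p : ℝ × C3} (hp : p.2 ≠ 0) : (Bm a p).IsInvertible := by
  have hinj : Function.Injective (Bm a p) := by
    rw [injective_iff_map_eq_zero]
    intro u hu
    obtain ⟨h1, h2, h3⟩ := h.solve hp (b := 0) (fun _ => rfl) hu
    obtain ⟨c, hc⟩ := h.nondeg p.1 p.2 u hp h3
    have hn : ‖p.2‖ ^ 2 ≠ 0 := by
      have := norm_ne_zero_iff.2 hp
      positivity
    rw [hc, csmul, inner_add_right, inner_smul_right, inner_smul_right, inner_self_J,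
      real_inner_self_eq_norm_sq] at h1
    rw [hc, csmul, inner_add_right, inner_smul_right, inner_smul_right, inner_J_self,
      inner_J_J_self] at h2
    have e1 : c.re = 0 := by
      have : c.re * ‖p.2‖ ^ 2 = 0 := by linarith
      exact (mul_eq_zero.1 this).resolve_right hn
    have e2 : c.im = 0 := by
      have : c.im * ‖p.2‖ ^ 2 = 0 := by linarith
      exact (mul_eq_zero.1 this).resolve_right hn
    have : c = 0 := Complex.ext e1 e2
    rw [hc, this, zero_smul]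
  have hfin : Module.finrank ℝ C3 = Module.finrank ℝ (C3 →L[ℝ] ℝ) := by
    rw [← (LinearMap.toContinuousLinearMap (𝕜 := ℝ) (E := C3) (F' := ℝ)).finrank_eq]
    exact (Subspace.dual_finrank_eq (K := ℝ) (V := C3)).symm
  let e := LinearEquiv.ofInjectiveOfFinrankEq (Bm a p).toLinearMap hinj hfin
  refine ⟨e.toContinuousLinearEquiv, ?_⟩
  ext u
  rfl

/-- the vector field of Moser's method -/
def Y (a : Cov2) (p : ℝ × C3) : C3 := (Bm a p).inverse (-dot a p)

theorem IsPath.Bm_Y (h : IsPath a) {p : ℝ × C3} (hp : p.2 ≠ 0) : Bm a p (Y a p) = -dot a p := by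
  obtain ⟨e, he⟩ := h.invertible hp
  unfold Y
  rw [← he, ContinuousLinearMap.inverse_equiv]
  exact e.apply_symm_apply _

theorem IsPath.Y_prop (h : IsPath a) {p : ℝ × C3} (hp : p.2 ≠ 0) :
    inner ℝ p.2 (Y a p) = 0 ∧ inner ℝ (J p.2) (Y a p) = 0 ∧
      ∀ w, Om a p (Y a p) w = -dot a p w :=
  h.solve hp (fun c => by
    rw [neg_apply, h.dot_vertical hp, neg_zero]) (h.Bm_Y hp)

theorem IsPath.Y_unique (h : IsPath a) {p : ℝ × C3} (hp : p.2 ≠ 0) {u : C3}
    (h1 : inner ℝ p.2 u = 0) (h2 : inner ℝ (J p.2) u = 0) (h3 : ∀ w, Om a p u w = -dot a p w) :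
    u = Y a p := by
  obtain ⟨e, he⟩ := h.invertible hp
  apply e.injective
  have e1 : Bm a p u = -dot a p := by
    ext w
    rw [Bm_apply, h1, h2, h3, neg_apply]
    ring
  have e2 := h.Bm_Y hp
  rw [← he] at e1 e2
  exact e1.trans e2.symm

theorem IsPath.Y_scale (h : IsPath a) {c : ℂ} (hc : c ≠ 0) {s : ℝ} {z : C3} (hz : z ≠ 0) :
    Y a (s, c • z) = c • Y a (s, z) := by
  have hcz : c • z ≠ 0 := smul_ne_zero hc hz
  obtain ⟨h1, h2, h3⟩ := h.Y_prop (p := (s, z)) hz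
  have hC : inner ℂ z (Y a (s, z)) = 0 := by
    apply Complex.ext
    · rw [← inner_re]
      exact h1
    · rw [← inner_im]
      exact h2
  have hC2 : inner ℂ (c • z) (c • Y a (s, z)) = 0 := by
    rw [inner_smul_left, inner_smul_right, hC, mul_zero, mul_zero]
  symm
  apply h.Y_unique (p := (s, c • z)) hcz
  · rw [inner_re]
    show (inner ℂ (c • z) (c • Y a (s, z))).re = 0
    rw [hC2]
    rfl
  · rw [inner_im]
    show (inner ℂ (c • z) (c • Y a (s, z))).im = 0
    rw [hC2]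
    rfl
  · intro w
    have hw : w = c • (c⁻¹ • w) := by rw [smul_smul, mul_inv_cancel₀ hc, one_smul]
    rw [hw, h.om_scale hc hz, h.dot_scale hc hz]
    exact h3 _

theorem IsPath.Y_out (h : IsPath a) {p : ℝ × C3} (hp : p.2 ≠ 0) (hs : p.1 ∉ Icc (0 : ℝ) 1) :
    Y a p = 0 := by
  unfold Y
  rw [h.dot_out hp hs, neg_zero, map_zero]

theorem contDiffOn_fderiv (h : IsPath a) : ContDiffOn ℝ ∞ (fderiv ℝ a) UU :=
  h.smooth.fderiv_of_isOpen isOpen_UU (by simp)

theorem bl_flip : IsBoundedLinearMap ℝ (fun f : C3 →L[ℝ] C3 →L[ℝ] ℝ => f.flip) where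
  map_add _ _ := rfl
  map_smul _ _ := rfl
  bound := ⟨1, one_pos, fun f => by
    rw [one_mul]
    exact f.opNorm_flip.le⟩

theorem cd_flip : ContDiff ℝ ∞ (fun f : C3 →L[ℝ] C3 →L[ℝ] ℝ => f.flip) := bl_flip.contDiff

theorem contDiffOn_Y (h : IsPath a) : ContDiffOn ℝ ∞ (Y a) UU := by
  have h1 := contDiffOn_fderiv h
  have h2 : ContDiffOn ℝ ∞ (fun p => (fderiv ℝ a p).comp (ContinuousLinearMap.inr ℝ ℝ C3)) UU :=
    h1.clm_comp contDiffOn_const
  have h3 : ContDiffOn ℝ ∞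
      (fun p => ((fderiv ℝ a p).comp (ContinuousLinearMap.inr ℝ ℝ C3)).flip) UU :=
    cd_flip.comp_contDiffOn h2
  have h4 : ContDiff ℝ ∞ (fun p : ℝ × C3 => ip p.2) := ip.contDiff.comp contDiff_snd
  have h5 : ContDiff ℝ ∞ (fun p : ℝ × C3 => tau p.2) := tau.contDiff.comp contDiff_snd
  have h6 : ContDiff ℝ ∞ (fun p : ℝ × C3 => (ip p.2).smulRight (ip p.2)) := h4.smulRight h4
  have h7 : ContDiff ℝ ∞ (fun p : ℝ × C3 => (tau p.2).smulRight (tau p.2)) := h5.smulRight h5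
  have h8 : ContDiffOn ℝ ∞ (Bm a) UU := (h2.sub h3).add (h6.add h7).contDiffOn
  have h9 : ContDiffOn ℝ ∞ (dot a) UU := h1.clm_apply contDiffOn_const
  intro p hp
  have h10 : ContDiffAt ℝ ∞ ContinuousLinearMap.inverse (Bm a p) :=
    (h.invertible hp).contDiffAt_map_inverse
  have h11 := h10.comp_contDiffWithinAt p (h8 p hp)
  exact h11.clm_apply (h9 p hp).neg

end

end Pool.Agent.H820.ML
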