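import Pool.Agent.H820.ML.Moser
import Pool.Agent.H820.ML.Defs

/-!
Pull-backs of connection forms.
-/

set_option autoImplicit false

open Set Topology Filter
open scoped ContDiff

noncomputable section

namespace Pool.Agent.H820.ML

open Pool.Agent.H820.PC

theorem IsLift.diff {F : C3 → C3} (h : IsLift F) {z : C3} (hz : z ≠ 0) :
    DifferentiableAt ℝ F z :=
  (h.smooth.contDiffAt (mem_nhds_Dom hz)).differentiableAt (by simp)

theorem IsLift.zero {F : C3 → C3} (h : IsLift F) : F 0 = 0 := by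
  have := h.equivariant 0 0
  rwa [zero_smul, zero_smul] at this

theorem IsLift.fderiv_scale {F : C3 → C3} (h : IsLift F) {c : ℂ} (hc : c ≠ 0) {z : C3}
    (hz : z ≠ 0) (v : C3) : fderiv ℝ F (c • z) (c • v) = c • fderiv ℝ F z v := by
  have hcz : c • z ≠ 0 := smul_ne_zero hc hz
  have h1 : HasFDerivAt (fun x : C3 => F (mulC c x)) ((fderiv ℝ F (c • z)).comp (mulC c)) z :=
    (h.diff hcz).hasFDerivAt.comp z (mulC c).hasFDerivAt
  have h2 : HasFDerivAt (fun x : C3 => mulC c (F x)) ((mulC c).comp (fderiv ℝ F z)) z :=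
    (mulC c).hasFDerivAt.comp z (h.diff hz).hasFDerivAt
  have h3 : (fun x : C3 => F (mulC c x)) = fun x => mulC c (F x) := by
    funext x
    exact h.equivariant c x
  rw [h3] at h1
  exact congrArg (fun L : C3 →L[ℝ] C3 => L v) (h1.unique h2)

theorem IsLift.fderiv_vertical {F : C3 → C3} (h : IsLift F) {z : C3} (hz : z ≠ 0) (c : ℂ) :
    fderiv ℝ F z (c • z) = c • F z := by
  have hc1 : ∀ y : C3, HasDerivAt (fun t : ℝ => (1 + (t : ℂ) * c) • y) (c • y) 0 := by
    intro y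
    have := ((Complex.ofRealCLM.hasDerivAt (x := (0 : ℝ))).mul_const c).const_add 1
    have h2 := this.smul_const y
    simpa using h2
  have h3 : HasDerivAt (fun t : ℝ => F ((1 + (t : ℂ) * c) • z)) (fderiv ℝ F z (c • z)) 0 := by
    have h4 : HasFDerivAt F (fderiv ℝ F z) ((fun t : ℝ => (1 + (t : ℂ) * c) • z) 0) := by
      simpa using (h.diff hz).hasFDerivAt
    exact h4.comp_hasDerivAt 0 (hc1 z)
  have h5 : (fun t : ℝ => F ((1 + (t : ℂ) * c) • z)) = fun t : ℝ => (1 + (t : ℂ) * c) • F z := by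
    funext t
    exact h.equivariant _ _
  rw [h5] at h3
  exact h3.unique (hc1 (F z))

theorem IsLift.comp {F G : C3 → C3} (hF : IsLift F) (hG : IsLift G) (h0 : ∀ z, z ≠ 0 → G z ≠ 0) :
    IsLift (fun z => F (G z)) :=
  ⟨hF.smooth.comp hG.smooth h0, fun c z => by rw [hG.equivariant, hF.equivariant]⟩

/-- the pull-back of a covector field -/
def pc (F : C3 → C3) (b : C3 → C3 →L[ℝ] ℝ) (z : C3) : C3 →L[ℝ] ℝ := (b (F z)).comp (fderiv ℝ F z)

theorem isConn_pc {F : C3 → C3} (h : IsLift F) (h0 : ∀ z, z ≠ 0 → F z ≠ 0)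
    {b : C3 → C3 →L[ℝ] ℝ} (hs : ContDiffOn ℝ ∞ b Dom) (hb : IsConn (cov b)) :
    IsConn (cov (pc F b)) := by
  refine ⟨?_, ?_, ?_⟩
  · apply contDiffOn_cov
    exact (hs.comp h.smooth h0).clm_comp (h.smooth.fderiv_of_isOpen isOpen_Dom (by simp))
  · intro c z v hc hz
    rw [cov_apply', cov_apply']
    show b (F (c • z)) (fderiv ℝ F (c • z) (c • v 0)) = b (F z) (fderiv ℝ F z (v 0))
    rw [h.fderiv_scale hc hz, h.equivariant]
    have := hb.invariant c (F z) ![fderiv ℝ F z (v 0)] hc (h0 z hz)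
    exact this
  · obtain ⟨l, hl⟩ := hb.vertical
    refine ⟨l, fun z c hz => ?_⟩
    rw [cov_apply]
    show b (F z) (fderiv ℝ F z (c • z)) = l c
    rw [h.fderiv_vertical hz]
    exact hl (F z) c (h0 z hz)

theorem extDeriv_pc {F : C3 → C3} (h : IsLift F) (h0 : ∀ z, z ≠ 0 → F z ≠ 0)
    {b : C3 → C3 →L[ℝ] ℝ} (hs : ContDiffOn ℝ ∞ b Dom) {z : C3} (hz : z ≠ 0) (v w : C3) :
    extDeriv (cov (pc F b)) z ![v, w] =
      extDeriv (cov b) (F z) ![fderiv ℝ F z v, fderiv ℝ F z w] := by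
  have h1 := extDeriv_pullback (f := F) (x := z) (r := ∞)
    (differentiableAt_of (contDiffOn_cov hs) (h0 z hz))
    (h.smooth.contDiffAt (mem_nhds_Dom hz)) two_le_inf
  have h2 : (fun x => (cov b (F x)).compContinuousLinearMap (fderiv ℝ F x)) = cov (pc F b) := by
    funext x
    ext u
    rfl
  rw [h2] at h1
  rw [h1, ContinuousAlternatingMap.compContinuousLinearMap_apply]
  congr 1
  funext i
  fin_cases i <;> rfl

/-- a form with positive square is nondegenerate -/
theorem nondeg_of_pos {T : TwoForm} (h : ∀ z e n, IsFrame z e n → 0 < pfA (T.1 z) e n) {z u : C3}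
    (hz : z ≠ 0) (hu : ∀ w, T.1 z ![u, w] = 0) : ∃ c : ℂ, u = c • z := by
  by_contra hcon
  push Not at hcon
  set c : ℂ := (‖z‖ : ℂ)⁻¹ with hc
  have hc0 : c ≠ 0 := unit_ne hz
  have hz1 : ‖c • z‖ = 1 := norm_unit hz
  set x : C3 := c • u - inner ℂ (c • z) (c • u) • (c • z) with hx
  have hx1 : inner ℂ (c • z) x = 0 := by
    have h2 : inner ℂ (c • z) (inner ℂ (c • z) (c • u) • (c • z)) =
        inner ℂ (c • z) (c • u) * inner ℂ (c • z) (c • z) := inner_smul_right _ _ _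
    have h3 : inner ℂ (c • z) (c • z) = (1 : ℂ) := by
      rw [inner_self_eq_norm_sq_to_K, hz1]
      norm_num
    rw [hx, inner_sub_right, h2, h3, mul_one, sub_self]
  have hx0 : x ≠ 0 := by
    intro h0
    rw [hx, sub_eq_zero] at h0
    have h2 : u = inner ℂ (c • z) (c • u) • z := by
      have h3 : c • u = c • (inner ℂ (c • z) (c • u) • z) := by
        rw [smul_comm c (inner ℂ (c • z) (c • u)) z]
        exact h0
      exact (smul_right_injective C3 hc0) h3
    exact hcon _ h2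
  obtain ⟨n, hf⟩ := exists_frame_of_horizontal hz1 hx1 hx0
  have hpos := h _ _ _ hf
  have hcz : c • z ≠ 0 := smul_ne_zero hc0 hz
  have e1 : ∀ w, T.1 (c • z) ![c • u, w] = 0 := by
    intro w
    have hw : w = c • (c⁻¹ • w) := by rw [smul_smul, mul_inv_cancel₀ hc0, one_smul]
    rw [hw, T.2.inv2 hc0 hz]
    exact hu _
  have hH : Hor (T.1 (c • z)) (c • z) := T.2.hor hcz
  have e2 : ∀ w, T.1 (c • z) ![x, w] = 0 := by
    intro w
    have h2 := hH.add_left (inner ℂ (c • z) (c • u)) x w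
    have h3 : inner ℂ (c • z) (c • u) • (c • z) + x = c • u := by
      rw [hx]
      abel
    have h4 : x + inner ℂ (c • z) (c • u) • (c • z) = c • u := by rw [add_comm, h3]
    have h5 : T.1 (c • z) ![c • u, w] =
        T.1 (c • z) ![inner ℂ (c • z) (c • u) • (c • z), w] + T.1 (c • z) ![x, w] := by
      rw [← bil_add_left, h3]
    rw [e1 w, hH, zero_add] at h5
    exact h5.symm
  have e3 : ∀ w, T.1 (c • z) ![((‖x‖ : ℂ)⁻¹) • x, w] = 0 := by
    intro w
    have h2 : ((‖x‖ : ℂ)⁻¹) • x = (‖x‖⁻¹ : ℝ) • x := by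
      rw [← Complex.ofReal_inv, Complex.coe_smul]
    rw [h2, bil_smul_left, e2, mul_zero]
  unfold pfA at hpos
  rw [e3, e3, e3] at hpos
  simp at hpos

end Pool.Agent.H820.ML
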